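import Pool.Agent.helper8.GD.Spec

/-!
# Project GD, module M1: sieving few classes modulo small primes
-/

set_option autoImplicit false

namespace GD

open Finset ArithmeticFunction

/-! ### Elementary symmetric sums -/

noncomputable def M1_e (x : ℕ → ℝ) (k : ℕ) (P : Finset ℕ) : ℝ :=
  ∑ E ∈ P.powersetCard k, ∏ l ∈ E, x l

theorem M1_e_zero (x : ℕ → ℝ) (P : Finset ℕ) : M1_e x 0 P = 1 := by simp [M1_e]

theorem M1_e_insert (x : ℕ → ℝ) (k : ℕ) {y : ℕ} {P : Finset ℕ} (hy : y ∉ P) :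
    M1_e x (k + 1) (insert y P) = M1_e x (k + 1) P + x y * M1_e x k P := by
  unfold M1_e
  rw [Finset.powersetCard_succ_insert hy, Finset.sum_union, Finset.sum_image]
  · congr 1
    rw [Finset.mul_sum]
    apply Finset.sum_congr rfl
    intro E hE
    rw [Finset.prod_insert]
    intro h
    exact hy ((Finset.mem_powersetCard.mp hE).1 h)
  · intro E hE E' hE' h
    have h1 : y ∉ E := fun h' => hy ((Finset.mem_powersetCard.mp hE).1 h')
    have h2 : y ∉ E' := fun h' => hy ((Finset.mem_powersetCard.mp hE').1 h')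
    have h' : insert y E = insert y E' := h
    rw [← Finset.erase_insert h1, ← Finset.erase_insert h2, h']
  · rw [Finset.disjoint_left]
    intro E hE hE'
    rw [Finset.mem_image] at hE'
    obtain ⟨E', _, rfl⟩ := hE'
    exact hy ((Finset.mem_powersetCard.mp hE).1 (Finset.mem_insert_self _ _))

theorem M1_e_nonneg (x : ℕ → ℝ) (k : ℕ) (P : Finset ℕ) (hx : ∀ l ∈ P, 0 ≤ x l) :
    0 ≤ M1_e x k P := by
  unfold M1_e
  apply Finset.sum_nonneg
  intro E hE
  apply Finset.prod_nonneg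
  intro l hl
  exact hx l ((Finset.mem_powersetCard.mp hE).1 hl)

theorem M1_e_empty (x : ℕ → ℝ) (k : ℕ) : M1_e x (k + 1) ∅ = 0 := by
  unfold M1_e
  rw [Finset.powersetCard_eq_empty.mpr (by simp), Finset.sum_empty]

theorem M1_bonf (x : ℕ → ℝ) (P : Finset ℕ) : (∀ l ∈ P, 0 ≤ x l ∧ x l ≤ 1) → ∀ m : ℕ,
    |∏ l ∈ P, (1 - x l) - ∑ k ∈ range m, (-1 : ℝ) ^ k * M1_e x k P| ≤ M1_e x m P := by
  induction P using Finset.induction_on with
  | empty =>
    intro _ m
    cases m with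
    | zero => simp [M1_e_zero]
    | succ m =>
      rw [Finset.sum_range_succ', M1_e_empty]
      have : ∑ k ∈ range m, (-1 : ℝ) ^ (k + 1) * M1_e x (k + 1) ∅ = 0 :=
        Finset.sum_eq_zero fun k _ => by rw [M1_e_empty, mul_zero]
      rw [this, M1_e_zero]
      simp
  | insert y P hy ih =>
    intro hx m
    have hxP : ∀ l ∈ P, 0 ≤ x l ∧ x l ≤ 1 := fun l hl => hx l (Finset.mem_insert_of_mem hl)
    have hxy := hx y (Finset.mem_insert_self _ _)
    have hp0 : 0 ≤ ∏ l ∈ P, (1 - x l) := Finset.prod_nonneg fun l hl => by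
      have := hxP l hl; linarith
    have hp1 : ∏ l ∈ P, (1 - x l) ≤ 1 := by
      apply Finset.prod_le_one
      · intro l hl; have := hxP l hl; linarith
      · intro l hl; have := hxP l hl; linarith
    rw [Finset.prod_insert hy]
    cases m with
    | zero =>
      rw [M1_e_zero, Finset.sum_range_zero, sub_zero, abs_of_nonneg]
      · nlinarith
      · apply mul_nonneg _ hp0
        linarith
    | succ m =>
      have e1 : ∑ k ∈ range (m + 1), (-1 : ℝ) ^ k * M1_e x k (insert y P) =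
          ∑ k ∈ range (m + 1), (-1 : ℝ) ^ k * M1_e x k P
            - x y * ∑ k ∈ range m, (-1 : ℝ) ^ k * M1_e x k P := by
        rw [Finset.sum_range_succ', Finset.sum_range_succ' (fun k => (-1 : ℝ) ^ k * M1_e x k P)]
        rw [M1_e_zero, M1_e_zero, Finset.mul_sum]
        have : ∀ k ∈ range m, (-1 : ℝ) ^ (k + 1) * M1_e x (k + 1) (insert y P) =
            (-1 : ℝ) ^ (k + 1) * M1_e x (k + 1) P - x y * ((-1 : ℝ) ^ k * M1_e x k P) := by
          intro k _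
          rw [M1_e_insert x k hy, pow_succ]
          ring
        rw [Finset.sum_congr rfl this, Finset.sum_sub_distrib]
        ring
      rw [e1, M1_e_insert x m hy]
      have h1 := ih hxP (m + 1)
      have h2 := ih hxP m
      have e2 : (1 - x y) * ∏ l ∈ P, (1 - x l) -
          (∑ k ∈ range (m + 1), (-1 : ℝ) ^ k * M1_e x k P
            - x y * ∑ k ∈ range m, (-1 : ℝ) ^ k * M1_e x k P) =
          (∏ l ∈ P, (1 - x l) - ∑ k ∈ range (m + 1), (-1 : ℝ) ^ k * M1_e x k P)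
            - x y * (∏ l ∈ P, (1 - x l) - ∑ k ∈ range m, (-1 : ℝ) ^ k * M1_e x k P) := by
        ring
      rw [e2]
      calc _ ≤ |∏ l ∈ P, (1 - x l) - ∑ k ∈ range (m + 1), (-1 : ℝ) ^ k * M1_e x k P| +
            |x y * (∏ l ∈ P, (1 - x l) - ∑ k ∈ range m, (-1 : ℝ) ^ k * M1_e x k P)| :=
            abs_sub _ _
        _ ≤ M1_e x (m + 1) P + x y * M1_e x m P := by
            rw [abs_mul, abs_of_nonneg hxy.1]
            exact add_le_add h1 (mul_le_mul_of_nonneg_left h2 hxy.1)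

theorem M1_pow (S y : ℝ) (hS : 0 ≤ S) (hy : 0 ≤ y) (k : ℕ) :
    S ^ (k + 1) + (k + 1) * y * S ^ k ≤ (S + y) ^ (k + 1) := by
  induction k with
  | zero => simp
  | succ k ih =>
    have h1 : (S + y) ^ (k + 1 + 1) = (S + y) * (S + y) ^ (k + 1) := by ring
    have h2 : 0 ≤ S ^ k := pow_nonneg hS k
    have h3 := mul_le_mul_of_nonneg_left ih (add_nonneg hS hy)
    rw [h1]
    refine le_trans ?_ h3
    have e : (S + y) * (S ^ (k + 1) + (↑k + 1) * y * S ^ k) -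
        (S ^ (k + 1 + 1) + (((k + 1 : ℕ) : ℝ) + 1) * y * S ^ (k + 1)) =
        (k + 1) * y ^ 2 * S ^ k := by
      push_cast
      ring
    have h4 : 0 ≤ ((k : ℝ) + 1) * y ^ 2 * S ^ k := by positivity
    linarith

theorem M1_e_le (x : ℕ → ℝ) (P : Finset ℕ) : (∀ l ∈ P, 0 ≤ x l) → ∀ k : ℕ,
    M1_e x k P ≤ (∑ l ∈ P, x l) ^ k / k.factorial := by
  induction P using Finset.induction_on with
  | empty =>
    intro _ k
    cases k with
    | zero => simp [M1_e_zero]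
    | succ k =>
      rw [M1_e_empty]
      positivity
  | insert y P hy ih =>
    intro hx k
    have hxP : ∀ l ∈ P, 0 ≤ x l := fun l hl => hx l (Finset.mem_insert_of_mem hl)
    have hxy := hx y (Finset.mem_insert_self _ _)
    have hS : 0 ≤ ∑ l ∈ P, x l := Finset.sum_nonneg hxP
    cases k with
    | zero => simp [M1_e_zero]
    | succ k =>
      rw [M1_e_insert x k hy, Finset.sum_insert hy]
      have h1 := ih hxP (k + 1)
      have h2 := ih hxP k
      have hf : (0 : ℝ) < (k.factorial : ℝ) := by exact_mod_cast k.factorial_pos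
      have hf1 : ((k + 1).factorial : ℝ) = (k + 1) * (k.factorial : ℝ) := by
        rw [Nat.factorial_succ]
        push_cast
        ring
      have h3 := M1_pow (∑ l ∈ P, x l) (x y) hS hxy k
      calc M1_e x (k + 1) P + x y * M1_e x k P
          ≤ (∑ l ∈ P, x l) ^ (k + 1) / (k + 1).factorial
            + x y * ((∑ l ∈ P, x l) ^ k / k.factorial) :=
            add_le_add h1 (mul_le_mul_of_nonneg_left h2 hxy)
        _ = ((∑ l ∈ P, x l) ^ (k + 1) + (k + 1) * x y * (∑ l ∈ P, x l) ^ k)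
            / (k + 1).factorial := by
            rw [hf1]
            field_simp
        _ ≤ ((∑ l ∈ P, x l) + x y) ^ (k + 1) / (k + 1).factorial := by
            apply div_le_div_of_nonneg_right h3
            positivity
        _ = (x y + ∑ l ∈ P, x l) ^ (k + 1) / (k + 1).factorial := by rw [add_comm]

/-! ### Counting -/

theorem M1_base (t d a : ℕ) (hd : 0 < d) :
    |(#((Ioc 0 t).filter fun n => n ≡ a [MOD d]) : ℝ) - t / d| ≤ 1 := by
  have h := Nat.Ioc_filter_modEq_card 0 t hd a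
  have hdq : (0 : ℚ) < (d : ℚ) := by exact_mod_cast hd
  set A : ℚ := ((t : ℚ) - a) / d with hA
  set B : ℚ := (((0 : ℕ) : ℚ) - a) / d with hB
  have hAB : A - B = t / d := by
    rw [hA, hB]
    field_simp
    push_cast
    ring
  have hle : B ≤ A := by
    have : (0 : ℚ) ≤ t / d := by positivity
    linarith
  have hfl : ⌊B⌋ ≤ ⌊A⌋ := Int.floor_mono hle
  rw [max_eq_left (by linarith)] at h
  have h1 : ((#((Ioc 0 t).filter fun n => n ≡ a [MOD d]) : ℕ) : ℚ) = (⌊A⌋ : ℚ) - (⌊B⌋ : ℚ) := by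
    rw [← Int.cast_sub, ← h, Int.cast_natCast]
  have h2 := Int.floor_le A
  have h3 := Int.lt_floor_add_one A
  have h4 := Int.floor_le B
  have h5 := Int.lt_floor_add_one B
  have h6 : |((#((Ioc 0 t).filter fun n => n ≡ a [MOD d]) : ℕ) : ℚ) - t / d| ≤ 1 := by
    rw [h1, ← hAB, abs_le]
    constructor <;> linarith
  have h7 : ((|((#((Ioc 0 t).filter fun n => n ≡ a [MOD d]) : ℕ) : ℚ) - t / d| : ℚ) : ℝ) ≤
      ((1 : ℚ) : ℝ) := Rat.cast_le.mpr h6
  push_cast at h7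
  exact h7

noncomputable def M1_N (t d a : ℕ) (Ω : ℕ → Finset ℕ) (E : Finset ℕ) : ℝ :=
  (#((Ioc 0 t).filter fun n => n ≡ a [MOD d] ∧ ∀ l ∈ E, n % l ∈ Ω l) : ℝ)

theorem M1_step (t d a : ℕ) (Ω : ℕ → Finset ℕ) (l : ℕ) (E : Finset ℕ)
    (hl : Nat.Coprime d l) (hΩ : Ω l ⊆ range l) :
    M1_N t d a Ω (insert l E) =
      ∑ b ∈ Ω l, M1_N t (d * l) (Nat.chineseRemainder hl a b) Ω E := by
  unfold M1_N
  have h := Finset.card_eq_sum_card_fiberwise (f := fun n => n % l)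
    (s := (Ioc 0 t).filter fun n => n ≡ a [MOD d] ∧ ∀ l' ∈ insert l E, n % l' ∈ Ω l')
    (t := Ω l) (by
      intro n hn
      have hn' := (Finset.mem_filter.mp hn).2
      exact hn'.2 l (Finset.mem_insert_self _ _))
  rw [h]
  push_cast
  apply Finset.sum_congr rfl
  intro b hb
  have hbl : b < l := Finset.mem_range.mp (hΩ hb)
  congr 2
  ext n
  simp only [Finset.mem_filter]
  have hc := (Nat.chineseRemainder hl a b).prop
  constructor
  · rintro ⟨⟨h1, h2, h3⟩, h4⟩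
    refine ⟨h1, ?_, fun l' hl' => h3 l' (Finset.mem_insert_of_mem hl')⟩
    rw [← Nat.modEq_and_modEq_iff_modEq_mul hl]
    refine ⟨h2.trans hc.1.symm, ?_⟩
    have : n ≡ b [MOD l] := by
      show n % l = b % l
      rw [h4, Nat.mod_eq_of_lt hbl]
    exact this.trans hc.2.symm
  · rintro ⟨h1, h2, h3⟩
    rw [← Nat.modEq_and_modEq_iff_modEq_mul hl] at h2
    have h4 : n % l = b := by
      have h5 : n % l = b % l := h2.2.trans hc.2
      rwa [Nat.mod_eq_of_lt hbl] at h5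
    refine ⟨⟨h1, h2.1.trans hc.1, ?_⟩, h4⟩
    intro l' hl'
    rcases Finset.mem_insert.mp hl' with h5 | h5
    · rw [h5, h4]; exact hb
    · exact h3 l' h5

theorem M1_crt (t : ℕ) (Ω : ℕ → Finset ℕ) (E : Finset ℕ) : ∀ d a : ℕ, 0 < d →
    (∀ l ∈ E, l.Prime ∧ Nat.Coprime l d ∧ Ω l ⊆ range l) →
    |M1_N t d a Ω E - t / d * ∏ l ∈ E, ((#(Ω l) : ℝ) / l)| ≤ ∏ l ∈ E, (#(Ω l) : ℝ) := by
  induction E using Finset.induction_on with
  | empty =>
    intro d a hd _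
    unfold M1_N
    simp only [Finset.notMem_empty, false_imp_iff, implies_true, and_true, Finset.prod_empty,
      mul_one]
    exact M1_base t d a hd
  | insert l E hlE ih =>
    intro d a hd h
    obtain ⟨hlp, hld, hlΩ⟩ := h l (Finset.mem_insert_self _ _)
    have hl0 : (0 : ℝ) < l := by exact_mod_cast hlp.pos
    have hd0 : (0 : ℝ) < d := by exact_mod_cast hd
    rw [M1_step t d a Ω l E hld.symm hlΩ, Finset.prod_insert hlE, Finset.prod_insert hlE]
    have hE : ∀ l' ∈ E, l'.Prime ∧ Nat.Coprime l' (d * l) ∧ Ω l' ⊆ range l' := by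
      intro l' hl'
      obtain ⟨h1, h2, h3⟩ := h l' (Finset.mem_insert_of_mem hl')
      refine ⟨h1, Nat.Coprime.mul_right h2 ?_, h3⟩
      rw [Nat.coprime_primes h1 hlp]
      intro h4
      rw [h4] at hl'
      exact hlE hl'
    have e1 : (t : ℝ) / d * ((#(Ω l) : ℝ) / l * ∏ l' ∈ E, ((#(Ω l') : ℝ) / l')) =
        ∑ b ∈ Ω l, (t : ℝ) / ((d * l : ℕ) : ℝ) * ∏ l' ∈ E, ((#(Ω l') : ℝ) / l') := by
      rw [Finset.sum_const, nsmul_eq_mul]
      push_cast
      field_simp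
    rw [e1, ← Finset.sum_sub_distrib]
    refine (Finset.abs_sum_le_sum_abs _ _).trans ?_
    calc _ ≤ ∑ b ∈ Ω l, ∏ l' ∈ E, (#(Ω l') : ℝ) :=
          Finset.sum_le_sum fun b _ => ih (d * l) _ (Nat.mul_pos hd hlp.pos) hE
      _ = (#(Ω l) : ℝ) * ∏ l' ∈ E, (#(Ω l') : ℝ) := by rw [Finset.sum_const, nsmul_eq_mul]

theorem M1_geom (y : ℝ) (hy : 0 ≤ y) (m : ℕ) : ∑ k ∈ range (m + 1), y ^ k ≤ (1 + y) ^ m := by
  induction m with
  | zero => simp
  | succ m ih =>
    rw [Finset.sum_range_succ, pow_succ (1 + y)]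
    have h1 : y ^ m ≤ (1 + y) ^ m := pow_le_pow_left₀ hy (by linarith) m
    have h2 : y ^ (m + 1) = y * y ^ m := by ring
    have h3 : y * y ^ m ≤ y * (1 + y) ^ m := mul_le_mul_of_nonneg_left h1 hy
    linarith

theorem M1_err (Ω : ℕ → Finset ℕ) (P : Finset ℕ) (h : ∀ l ∈ P, #(Ω l) ≤ 6) (k : ℕ) :
    ∑ E ∈ P.powersetCard k, ∏ l ∈ E, (#(Ω l) : ℝ) ≤ (6 * (#P : ℝ)) ^ k := by
  calc ∑ E ∈ P.powersetCard k, ∏ l ∈ E, (#(Ω l) : ℝ)
      ≤ ∑ E ∈ P.powersetCard k, (6 : ℝ) ^ k := by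
        apply Finset.sum_le_sum
        intro E hE
        obtain ⟨h1, h2⟩ := Finset.mem_powersetCard.mp hE
        rw [← h2, ← Finset.prod_const]
        apply Finset.prod_le_prod
        · intro l _; positivity
        · intro l hl; exact_mod_cast h l (h1 hl)
    _ = ((#P).choose k : ℝ) * 6 ^ k := by
        rw [Finset.sum_const, Finset.card_powersetCard, nsmul_eq_mul]
    _ ≤ (#P : ℝ) ^ k * 6 ^ k := by
        apply mul_le_mul_of_nonneg_right _ (by positivity)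
        exact_mod_cast Nat.choose_le_pow (#P) k
    _ = (6 * (#P : ℝ)) ^ k := by rw [mul_pow]; ring

open Classical in
theorem M1_core (P : Finset ℕ) (Ω : ℕ → Finset ℕ) (d a t m : ℕ) (hd : 0 < d)
    (hP : ∀ l ∈ P, l.Prime ∧ Nat.Coprime l d ∧ Ω l ⊆ range l ∧ #(Ω l) ≤ 6) :
    |(#((Ioc 0 t).filter fun n => n ≡ a [MOD d] ∧ ∀ l ∈ P, n % l ∉ Ω l) : ℝ)
       - t / d * ∏ l ∈ P, (1 - (#(Ω l) : ℝ) / l)| ≤
      2 * (t / d * ((∑ l ∈ P, (#(Ω l) : ℝ) / l) ^ m / m.factorial)) + (1 + 6 * (#P : ℝ)) ^ m := by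
  set x : ℕ → ℝ := fun l => (#(Ω l) : ℝ) / l with hx
  set S : Finset ℕ := (Ioc 0 t).filter fun n => n ≡ a [MOD d] with hS
  set ι : ℕ → ℕ → ℝ := fun n l => if n % l ∈ Ω l then 1 else 0 with hι
  have htd : (0 : ℝ) ≤ t / d := by positivity
  have hx01 : ∀ l ∈ P, 0 ≤ x l ∧ x l ≤ 1 := by
    intro l hl
    obtain ⟨h1, _, h3, _⟩ := hP l hl
    have hl0 : (0 : ℝ) < l := by exact_mod_cast h1.pos
    refine ⟨by rw [hx]; positivity, ?_⟩
    rw [hx]
    simp only
    rw [div_le_one hl0]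
    have := Finset.card_le_card h3
    rw [Finset.card_range] at this
    exact_mod_cast this
  have hι01 : ∀ n, ∀ l ∈ P, 0 ≤ ι n l ∧ ι n l ≤ 1 := by
    intro n l _
    rw [hι]
    simp only
    split_ifs <;> simp
  -- the count
  have e1 : (#((Ioc 0 t).filter fun n => n ≡ a [MOD d] ∧ ∀ l ∈ P, n % l ∉ Ω l) : ℝ) =
      ∑ n ∈ S, ∏ l ∈ P, (1 - ι n l) := by
    have h1 : ∀ n ∈ S, ∏ l ∈ P, (1 - ι n l) = if ∀ l ∈ P, n % l ∉ Ω l then 1 else 0 := by
      intro n _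
      rw [← Finset.prod_boole]
      apply Finset.prod_congr rfl
      intro l _
      rw [hι]
      simp only
      split_ifs <;> simp_all
    rw [Finset.sum_congr rfl h1, Finset.sum_boole, hS, Finset.filter_filter]
  have e2 : ∀ k, ∑ n ∈ S, M1_e (ι n) k P = ∑ E ∈ P.powersetCard k, M1_N t d a Ω E := by
    intro k
    unfold M1_e
    rw [Finset.sum_comm]
    apply Finset.sum_congr rfl
    intro E _
    unfold M1_N
    have h1 : ∀ n ∈ S, ∏ l ∈ E, ι n l = if ∀ l ∈ E, n % l ∈ Ω l then 1 else 0 := by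
      intro n _
      rw [← Finset.prod_boole]
    rw [Finset.sum_congr rfl h1, Finset.sum_boole, hS, Finset.filter_filter]
  -- comparison of N_k and M_k
  have e3 : ∀ k, |∑ E ∈ P.powersetCard k, M1_N t d a Ω E - t / d * M1_e x k P| ≤
      (6 * (#P : ℝ)) ^ k := by
    intro k
    unfold M1_e
    rw [Finset.mul_sum, ← Finset.sum_sub_distrib]
    refine (Finset.abs_sum_le_sum_abs _ _).trans ((Finset.sum_le_sum fun E hE => ?_).trans
      (M1_err Ω P (fun l hl => (hP l hl).2.2.2) k))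
    refine M1_crt t Ω E d a hd fun l hl => ?_
    have h1 := hP l ((Finset.mem_powersetCard.mp hE).1 hl)
    exact ⟨h1.1, h1.2.1, h1.2.2.1⟩
  -- first term
  have f1 : |∑ n ∈ S, ∏ l ∈ P, (1 - ι n l) -
      ∑ k ∈ range m, (-1 : ℝ) ^ k * ∑ E ∈ P.powersetCard k, M1_N t d a Ω E| ≤
      ∑ E ∈ P.powersetCard m, M1_N t d a Ω E := by
    have h1 : ∑ k ∈ range m, (-1 : ℝ) ^ k * ∑ E ∈ P.powersetCard k, M1_N t d a Ω E =
        ∑ n ∈ S, ∑ k ∈ range m, (-1 : ℝ) ^ k * M1_e (ι n) k P := by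
      rw [Finset.sum_comm]
      apply Finset.sum_congr rfl
      intro k _
      rw [← e2, Finset.mul_sum]
    rw [h1, ← Finset.sum_sub_distrib, ← e2]
    exact (Finset.abs_sum_le_sum_abs _ _).trans
      (Finset.sum_le_sum fun n _ => M1_bonf (ι n) P (hι01 n) m)
  have f2 : |∑ k ∈ range m, (-1 : ℝ) ^ k * ∑ E ∈ P.powersetCard k, M1_N t d a Ω E -
      ∑ k ∈ range m, (-1 : ℝ) ^ k * (t / d * M1_e x k P)| ≤
      ∑ k ∈ range m, (6 * (#P : ℝ)) ^ k := by
    rw [← Finset.sum_sub_distrib]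
    refine (Finset.abs_sum_le_sum_abs _ _).trans (Finset.sum_le_sum fun k _ => ?_)
    rw [← mul_sub, abs_mul, abs_pow, abs_neg, abs_one, one_pow, one_mul]
    exact e3 k
  have f3 : |∑ k ∈ range m, (-1 : ℝ) ^ k * (t / d * M1_e x k P) -
      t / d * ∏ l ∈ P, (1 - x l)| ≤ t / d * M1_e x m P := by
    have h1 : ∑ k ∈ range m, (-1 : ℝ) ^ k * (t / d * M1_e x k P) =
        t / d * ∑ k ∈ range m, (-1 : ℝ) ^ k * M1_e x k P := by
      rw [Finset.mul_sum]
      apply Finset.sum_congr rfl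
      intro k _
      ring
    rw [h1, ← mul_sub, abs_mul, abs_of_nonneg htd, abs_sub_comm]
    exact mul_le_mul_of_nonneg_left (M1_bonf x P hx01 m) htd
  have f4 : ∑ E ∈ P.powersetCard m, M1_N t d a Ω E ≤
      t / d * M1_e x m P + (6 * (#P : ℝ)) ^ m := by
    have := (abs_le.mp (e3 m)).2
    linarith
  have f5 : M1_e x m P ≤ (∑ l ∈ P, x l) ^ m / m.factorial :=
    M1_e_le x P (fun l hl => (hx01 l hl).1) m
  have f6 := M1_geom (6 * (#P : ℝ)) (by positivity) m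
  rw [Finset.sum_range_succ] at f6
  have f7 : t / d * M1_e x m P ≤ t / d * ((∑ l ∈ P, x l) ^ m / m.factorial) :=
    mul_le_mul_of_nonneg_left f5 htd
  rw [e1]
  have f8 : |∑ n ∈ S, ∏ l ∈ P, (1 - ι n l) - t / d * ∏ l ∈ P, (1 - x l)| ≤
      ∑ E ∈ P.powersetCard m, M1_N t d a Ω E + ∑ k ∈ range m, (6 * (#P : ℝ)) ^ k +
        t / d * M1_e x m P := by
    have a1 := abs_le.mp f1
    have a2 := abs_le.mp f2
    have a3 := abs_le.mp f3
    rw [abs_le]
    constructor <;> linarith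
  linarith

/-! ### Asymptotics -/

theorem M1_sum (P : Finset ℕ) (Ω : ℕ → Finset ℕ) (w : ℕ) (hP : P ⊆ Ps w)
    (h6 : ∀ l ∈ P, #(Ω l) ≤ 6) :
    ∑ l ∈ P, (#(Ω l) : ℝ) / l ≤ 6 * (1 + Real.log w) := by
  have h1 : ∑ l ∈ P, (#(Ω l) : ℝ) / l ≤ ∑ l ∈ P, 6 * ((l : ℝ)⁻¹) := by
    apply Finset.sum_le_sum
    intro l hl
    rw [div_eq_mul_inv]
    apply mul_le_mul_of_nonneg_right _ (by positivity)
    exact_mod_cast h6 l hl
  have h2 : ∑ l ∈ P, 6 * ((l : ℝ)⁻¹) ≤ ∑ l ∈ Icc 1 w, 6 * ((l : ℝ)⁻¹) := by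
    apply Finset.sum_le_sum_of_subset_of_nonneg
    · intro l hl
      exact (Finset.mem_filter.mp (hP hl)).1
    · intro l _ _
      positivity
  have h3 := harmonic_le_one_add_log w
  rw [harmonic_eq_sum_Icc] at h3
  push_cast at h3
  rw [← Finset.mul_sum, ← Finset.mul_sum] at h2
  rw [← Finset.mul_sum] at h1
  have h4 := mul_le_mul_of_nonneg_left h3 (by norm_num : (0 : ℝ) ≤ 6)
  linarith

theorem M1_exp2 : Real.exp 2 ≤ 8 := by
  have h1 := Real.exp_one_lt_d9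
  have h2 : Real.exp 2 = Real.exp 1 * Real.exp 1 := by
    rw [← Real.exp_add]; norm_num
  rw [h2]
  have h3 := Real.exp_pos 1
  nlinarith

theorem M1_tail (σ : ℝ) (m : ℕ) (hσ : 0 ≤ σ) (hm : 8 * σ ≤ m) :
    σ ^ m / m.factorial ≤ Real.exp (-m) := by
  have h1 := Real.pow_div_factorial_le_exp (x := 8 * σ) (by positivity) m
  have h2 : Real.exp (2 * m) ≤ 8 ^ m := by
    have : Real.exp (2 * m) = Real.exp 2 ^ m := by
      rw [← Real.exp_nat_mul]
      congr 1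
      ring
    rw [this]
    exact pow_le_pow_left₀ (Real.exp_pos 2).le M1_exp2 m
  have h3 : (8 * σ) ^ m / m.factorial = 8 ^ m * (σ ^ m / m.factorial) := by
    rw [mul_pow]; ring
  rw [h3] at h1
  have h4 : Real.exp (8 * σ) ≤ Real.exp m := Real.exp_le_exp.mpr hm
  have h5 : 0 ≤ σ ^ m / m.factorial := by positivity
  have h6 : Real.exp (2 * m) * (σ ^ m / m.factorial) ≤ Real.exp m :=
    (mul_le_mul_of_nonneg_right h2 h5).trans (h1.trans h4)
  have h7 : Real.exp (2 * m) * Real.exp (-m) = Real.exp m := by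
    rw [← Real.exp_add]
    congr 1
    ring
  rw [← h7] at h6
  exact le_of_mul_le_mul_left h6 (Real.exp_pos _)

theorem M1_first (X L A' t' dd τ E : ℝ) (hX : 0 ≤ X) (hL : 2 ≤ L) (hA : 0 < A') (hd : 0 < dd)
    (ht : t' ≤ X) (hτ0 : 0 ≤ τ) (hτ : τ ≤ E) (hE : E ≤ 1 / (A' * L)) :
    2 * (t' / dd * τ) ≤ X / dd / A' := by
  have hL0 : 0 < L := by linarith
  have h5 : t' / dd ≤ X / dd := div_le_div_of_nonneg_right ht hd.le
  have h6 : 0 ≤ X / dd := div_nonneg hX hd.le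
  have h7 : t' / dd * τ ≤ X / dd * (1 / (A' * L)) :=
    mul_le_mul h5 (hτ.trans hE) hτ0 h6
  have h8 : 2 * (X / dd * (1 / (A' * L))) = X / dd / A' * (2 / L) := by
    field_simp
  have h9 : X / dd / A' * (2 / L) ≤ X / dd / A' * 1 := by
    apply mul_le_mul_of_nonneg_left _ (div_nonneg h6 hA.le)
    rw [div_le_one hL0]
    exact hL
  rw [mul_one] at h9
  calc 2 * (t' / dd * τ) ≤ 2 * (X / dd * (1 / (A' * L))) := by linarith
    _ = X / dd / A' * (2 / L) := h8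
    _ ≤ X / dd / A' := h9

theorem M1_second (L lL p S κ ε X : ℝ) (C m : ℕ) (hL : 7 ≤ L) (hlL : lL = Real.log L)
    (hX : 0 < X) (hLX : L = Real.log X) (hl1 : 1 ≤ lL)
    (hp0 : 0 ≤ p) (hp : p ≤ L ^ C) (hS : 0 ≤ S) (hm : (m : ℝ) ≤ (S + 1) * lL)
    (hk : lL ^ 2 ≤ κ * L) (hκ : ((C : ℝ) + 1) * (S + 1) * κ = ε) :
    (1 + 6 * p) ^ m ≤ X ^ ε := by
  have hL0 : 0 < L := by linarith
  have hLC : 1 ≤ L ^ C := one_le_pow₀ (by linarith)
  have h1 : 1 + 6 * p ≤ L ^ (C + 1) := by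
    have h7 : 7 * L ^ C ≤ L * L ^ C := mul_le_mul_of_nonneg_right hL (by linarith)
    have h8 : L ^ (C + 1) = L * L ^ C := by ring
    rw [h8]
    linarith
  have h2 : (1 + 6 * p) ^ m ≤ (L ^ (C + 1)) ^ m :=
    pow_le_pow_left₀ (by linarith) h1 m
  have h3 : (L ^ (C + 1)) ^ m = Real.exp (((C : ℝ) + 1) * m * lL) := by
    rw [← pow_mul, ← Real.exp_log (pow_pos hL0 ((C + 1) * m)), Real.log_pow, hlL]
    push_cast
    rfl
  have h4 : X ^ ε = Real.exp (ε * L) := by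
    rw [Real.rpow_def_of_pos hX, mul_comm, hLX]
  rw [h4]
  refine h2.trans ?_
  rw [h3]
  apply Real.exp_le_exp.mpr
  have hC0 : (0 : ℝ) ≤ (C : ℝ) + 1 := by positivity
  have hl0 : 0 ≤ lL := by linarith
  have g1 : ((C : ℝ) + 1) * m ≤ ((C : ℝ) + 1) * ((S + 1) * lL) := mul_le_mul_of_nonneg_left hm hC0
  have g2 : ((C : ℝ) + 1) * m * lL ≤ ((C : ℝ) + 1) * ((S + 1) * lL) * lL :=
    mul_le_mul_of_nonneg_right g1 hl0
  have g3 : ((C : ℝ) + 1) * (S + 1) * lL ^ 2 ≤ ((C : ℝ) + 1) * (S + 1) * (κ * L) :=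
    mul_le_mul_of_nonneg_left hk (mul_nonneg hC0 (by linarith))
  have g4 : ((C : ℝ) + 1) * ((S + 1) * lL) * lL = ((C : ℝ) + 1) * (S + 1) * lL ^ 2 := by ring
  have g5 : ((C : ℝ) + 1) * (S + 1) * (κ * L) = ε * L := by rw [← hκ]; ring
  linarith

theorem M1 : M1_stmt := by
  intro A C ε hε
  obtain ⟨S, hS⟩ : ∃ S : ℝ, S = 48 * (1 + C) + A + 2 := ⟨_, rfl⟩
  have hC0 : (0 : ℝ) ≤ C := Nat.cast_nonneg C
  have hA0 : (0 : ℝ) ≤ A := Nat.cast_nonneg A
  have hS0 : 0 < S := by rw [hS]; linarith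
  obtain ⟨κ, hκ⟩ : ∃ κ : ℝ, κ = ε / ((C + 1) * (S + 1)) := ⟨_, rfl⟩
  have hden : 0 < ((C : ℝ) + 1) * (S + 1) := mul_pos (by linarith) (by linarith)
  have hκ0 : 0 < κ := by rw [hκ]; exact div_pos hε hden
  have hκ1 : ((C : ℝ) + 1) * (S + 1) * κ = ε := by
    rw [hκ]
    exact mul_div_cancel₀ _ hden.ne'
  have hlog : Filter.Tendsto (fun X : ℕ => Real.log X) Filter.atTop Filter.atTop :=
    Real.tendsto_log_atTop.comp tendsto_natCast_atTop_atTop
  have ev1 : ∀ᶠ X : ℕ in Filter.atTop, Real.log (Real.log X) ^ 2 ≤ κ * Real.log X := by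
    have h1 := (Real.isLittleO_pow_log_id_atTop (n := 2)).bound hκ0
    have h2 := hlog.eventually h1
    filter_upwards [h2, hlog.eventually (Filter.eventually_ge_atTop 0)] with X hX hX0
    rw [Real.norm_of_nonneg (sq_nonneg _)] at hX
    simp only [id] at hX
    rw [Real.norm_of_nonneg hX0] at hX
    exact hX
  have ev2 : ∀ᶠ X : ℕ in Filter.atTop, 8 ≤ Real.log X :=
    hlog.eventually (Filter.eventually_ge_atTop 8)
  obtain ⟨X₀, hX₀⟩ := Filter.eventually_atTop.mp (ev1.and ev2)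
  refine ⟨X₀, ?_⟩
  intro X hX P hP Ω hΩ d a t hd ht hcop
  obtain ⟨hk1, hk2⟩ := hX₀ X hX
  obtain ⟨L, hL⟩ : ∃ L : ℝ, L = Real.log X := ⟨_, rfl⟩
  have hwX : wX X C = ⌊L ^ C⌋₊ := by rw [hL]; rfl
  rw [← hL] at hk1 hk2 ⊢
  have hL0 : 0 < L := by linarith
  have hX1 : (0 : ℝ) < X := by
    rcases Nat.eq_zero_or_pos X with h | h
    · rw [hL, h, Nat.cast_zero, Real.log_zero] at hk2
      linarith
    · exact_mod_cast h
  obtain ⟨lL, hlL⟩ : ∃ l : ℝ, l = Real.log L := ⟨_, rfl⟩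
  rw [← hlL] at hk1
  have hl1 : 1 ≤ lL := by
    rw [hlL, Real.le_log_iff_exp_le hL0]
    have := Real.exp_one_lt_d9
    linarith
  obtain ⟨m, hm⟩ : ∃ m : ℕ, m = ⌈S * lL⌉₊ := ⟨_, rfl⟩
  have hSl : 0 ≤ S * lL := mul_nonneg hS0.le (by linarith)
  have hm1 : S * lL ≤ m := by rw [hm]; exact Nat.le_ceil _
  have hm2 : (m : ℝ) ≤ (S + 1) * lL := by
    have h3 : (m : ℝ) < S * lL + 1 := by rw [hm]; exact Nat.ceil_lt_add_one hSl
    have h4 : (S + 1) * lL = S * lL + lL := by ring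
    rw [h4]
    linarith
  -- the size of w
  obtain ⟨w, hw⟩ : ∃ w : ℕ, w = wX X C := ⟨_, rfl⟩
  rw [← hw] at hP hwX
  have hLC : 1 ≤ L ^ C := one_le_pow₀ (by linarith)
  have hw1 : (w : ℝ) ≤ L ^ C := by rw [hwX]; exact Nat.floor_le (by linarith)
  have hw2 : 1 ≤ w := by rw [hwX]; exact (Nat.one_le_floor_iff _).mpr hLC
  have hlw : Real.log w ≤ C * lL := by
    have h1 : Real.log w ≤ Real.log (L ^ C) :=
      Real.log_le_log (by exact_mod_cast hw2) hw1
    rwa [Real.log_pow, ← hlL] at h1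
  have hσ := M1_sum P Ω w hP (fun l hl => (hΩ l hl).2)
  have hcore := M1_core P Ω d a t m hd (fun l hl =>
    ⟨(Finset.mem_filter.mp (hP hl)).2, hcop l hl, (hΩ l hl).1, (hΩ l hl).2⟩)
  have hσ0 : 0 ≤ ∑ l ∈ P, (#(Ω l) : ℝ) / l := Finset.sum_nonneg fun l _ =>
    div_nonneg (Nat.cast_nonneg _) (Nat.cast_nonneg _)
  obtain ⟨σ, hσdef⟩ : ∃ σ : ℝ, σ = ∑ l ∈ P, (#(Ω l) : ℝ) / l := ⟨_, rfl⟩
  rw [← hσdef] at hσ hcore hσ0
  have hσm : 8 * σ ≤ m := by
    have h0 : (1 + (C : ℝ)) * lL = lL + C * lL := by ring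
    have h1 : σ ≤ 6 * ((1 + C) * lL) := by
      rw [h0]
      linarith
    have h2 : 48 * ((1 + C) * lL) ≤ S * lL := by
      have h3 : (48 * (1 + (C : ℝ))) * lL ≤ S * lL := by
        apply mul_le_mul_of_nonneg_right _ (by linarith)
        rw [hS]
        linarith
      linarith
    linarith
  refine hcore.trans (add_le_add ?_ ?_)
  · -- first error
    have h1 := M1_tail σ m hσ0 hσm
    have h2 : Real.exp (-m) ≤ 1 / (L ^ A * L) := by
      have h3 : ((A + 1 : ℕ) : ℝ) * lL ≤ m := by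
        refine le_trans ?_ hm1
        apply mul_le_mul_of_nonneg_right _ (by linarith)
        rw [hS]
        push_cast
        linarith
      have h4 : 1 / (L ^ A * L) = Real.exp (-(((A + 1 : ℕ) : ℝ) * lL)) := by
        rw [Real.exp_neg, Real.exp_nat_mul, hlL, Real.exp_log hL0, one_div, pow_succ]
      rw [h4]
      exact Real.exp_le_exp.mpr (by linarith)
    exact M1_first X L (L ^ A) t d _ _ hX1.le (by linarith) (pow_pos hL0 A) (by exact_mod_cast hd)
      (by exact_mod_cast ht)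
      (div_nonneg (pow_nonneg hσ0 m) (Nat.cast_nonneg _)) h1 h2
  · -- second error
    have hp : (#P : ℝ) ≤ L ^ C := by
      have h1 : #P ≤ w := by
        calc #P ≤ #(Ps w) := Finset.card_le_card hP
          _ ≤ #(Icc 1 w) := Finset.card_filter_le _ _
          _ = w := by rw [Nat.card_Icc, Nat.add_sub_cancel]
      have h2 : (#P : ℝ) ≤ w := by exact_mod_cast h1
      linarith
    exact M1_second L lL (#P) S κ ε X C m (by linarith) hlL hX1 hL hl1 (Nat.cast_nonneg _) hp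
      hS0.le hm2 hk1 hκ1

end GD
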